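import Mathlib

/-!
# The lower bound from the partition cuts
-/

set_option autoImplicit false
set_option linter.unusedSectionVars false

namespace Pool.Agent.H542.UP

open Finset

section
variable {V ι : Type} [Fintype V] [DecidableEq V] [Fintype ι] [DecidableEq ι]
  (G : SimpleGraph V) (κ : V → Option ι) (y : V → V → ℝ)

/-- twice the weight inside a component -/
def II (i : ι) : ℝ := ∑ u ∈ univ.filter (fun u => κ u = some i),
  ∑ v ∈ univ.filter (fun v => κ v = some i), y u v

/-- the weight between a component and the clique -/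
def DD (i : ι) : ℝ := ∑ u ∈ univ.filter (fun u => κ u = some i),
  ∑ v ∈ univ.filter (fun v => κ v = none), y u v

/-- twice the weight inside the clique -/
def KS : ℝ := ∑ u ∈ univ.filter (fun u => κ u = none),
  ∑ v ∈ univ.filter (fun v => κ v = none), y u v

theorem split (F : V → ℝ) : ∑ u, F u = ∑ u ∈ univ.filter (fun u => κ u = none), F u +
    ∑ i, ∑ u ∈ univ.filter (fun u => κ u = some i), F u := by
  rw [← Finset.sum_fiberwise univ κ F, Fintype.sum_option]

variable (hys : ∀ i j, y i j = y j i) (hy0 : ∀ i j, 0 ≤ y i j)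
  (hyG : ∀ i j, y i j ≠ 0 → G.Adj i j)
  (hκ : ∀ u v i, G.Adj u v → κ u = some i → κ v = none ∨ κ v = some i)

include hys in
theorem DD_symm (i : ι) : DD κ y i = ∑ u ∈ univ.filter (fun u => κ u = none),
    ∑ v ∈ univ.filter (fun v => κ v = some i), y u v := by
  unfold DD
  rw [Finset.sum_comm]
  apply Finset.sum_congr rfl
  intro u _
  apply Finset.sum_congr rfl
  intro v _
  exact hys v u

include hyG hκ in
theorem row (i : ι) (u : V) (hu : κ u = some i) : ∑ v, y u v =
    ∑ v ∈ univ.filter (fun v => κ v = none), y u v +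
      ∑ v ∈ univ.filter (fun v => κ v = some i), y u v := by
  rw [split κ (fun v => y u v)]
  congr 1
  rw [Finset.sum_eq_single i]
  · intro j _ hj
    apply Finset.sum_eq_zero
    intro v hv
    rw [Finset.mem_filter] at hv
    by_contra hne
    rcases hκ u v i (hyG u v hne) hu with h | h
    · rw [h] at hv
      exact absurd hv.2 (by simp)
    · rw [h] at hv
      exact hj (Option.some.inj hv.2).symm
  · intro h
    exact absurd (Finset.mem_univ i) h

include hys hyG hκ in
theorem tot : ∑ u, ∑ v, y u v = KS κ y + ∑ i, (II κ y i + 2 * DD κ y i) := by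
  rw [split κ (fun u => ∑ v, y u v)]
  have e1 : ∑ u ∈ univ.filter (fun u => κ u = none), ∑ v, y u v = KS κ y + ∑ i, DD κ y i := by
    have : ∀ u, ∑ v, y u v = ∑ v ∈ univ.filter (fun v => κ v = none), y u v +
        ∑ i, ∑ v ∈ univ.filter (fun v => κ v = some i), y u v := fun u => split κ (fun v => y u v)
    simp only [this]
    rw [Finset.sum_add_distrib]
    congr 1
    rw [Finset.sum_comm]
    apply Finset.sum_congr rfl
    intro i _
    rw [DD_symm κ y hys i]
  have e2 : ∀ i, ∑ u ∈ univ.filter (fun u => κ u = some i), ∑ v, y u v =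
      DD κ y i + II κ y i := by
    intro i
    unfold DD II
    rw [← Finset.sum_add_distrib]
    apply Finset.sum_congr rfl
    intro u hu
    rw [Finset.mem_filter] at hu
    exact row G κ y hyG hκ i u hu.2
  rw [e1, Finset.sum_congr rfl fun i _ => e2 i]
  rw [add_assoc, ← Finset.sum_add_distrib]
  congr 1
  apply Finset.sum_congr rfl
  intro i _
  ring

include hys hy0 hyG hκ in
open Classical in
theorem cuts {J : Type} [Fintype J] [DecidableEq J] (π : V → J) (c : ι → Prop)
    (hyc : ∀ S : Finset V, S.Nonempty → S ≠ univ → 2 ≤ ∑ i ∈ S, ∑ j ∈ univ \ S, y i j)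
    (hJ : ∀ j, ∃ k, κ k = none ∧ π k = j) (h2 : 2 ≤ Fintype.card J)
    (hc : ∀ i, ¬ c i → ∀ u v u' v', κ u = some i → κ u' = some i → κ v = none → κ v' = none →
      G.Adj u v → G.Adj u' v' → π v = π v') :
    2 * (Fintype.card J : ℝ) ≤ KS κ y + ∑ i, if c i then DD κ y i else 0 := by
  set X : J → Finset V := fun j => univ.filter (fun v => (κ v = none ∧ π v = j) ∨
    (∃ i, κ v = some i ∧ ¬ c i ∧ ∃ u w, κ u = some i ∧ κ w = none ∧ G.Adj u w ∧ π w = j)) with hX
  have hXm : ∀ j v, v ∈ X j ↔ ((κ v = none ∧ π v = j) ∨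
    (∃ i, κ v = some i ∧ ¬ c i ∧ ∃ u w, κ u = some i ∧ κ w = none ∧ G.Adj u w ∧ π w = j)) := by
    intro j v
    rw [hX]
    simp
  set CK : Finset V := univ.filter (fun v => κ v = none ∨ ∃ i, κ v = some i ∧ c i) with hCK
  have hCKm : ∀ v, v ∈ CK ↔ (κ v = none ∨ ∃ i, κ v = some i ∧ c i) := by
    intro v
    rw [hCK]
    simp
  have h3 : ∀ j, 2 ≤ ∑ u ∈ (univ.filter (fun u => κ u = none)).filter (fun u => π u = j),
      ∑ v ∈ CK, y u v := by
    intro j
    obtain ⟨k, hk1, hk2⟩ := hJ j
    have hne : (X j).Nonempty := ⟨k, (hXm j k).2 (Or.inl ⟨hk1, hk2⟩)⟩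
    have hnu : X j ≠ univ := by
      intro h
      haveI : Nontrivial J := Fintype.one_lt_card_iff_nontrivial.1 (by omega)
      obtain ⟨j', hj'⟩ := exists_ne j
      obtain ⟨k', hk1', hk2'⟩ := hJ j'
      have : k' ∈ X j := by rw [h]; exact Finset.mem_univ _
      rcases (hXm j k').1 this with h' | ⟨i, h', _⟩
      · exact hj' (hk2'.symm.trans h'.2)
      · rw [hk1'] at h'
        exact absurd h' (by simp)
    refine (hyc (X j) hne hnu).trans ?_
    have hsub : (univ.filter (fun u => κ u = none)).filter (fun u => π u = j) ⊆ X j := by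
      intro u hu
      rw [Finset.mem_filter, Finset.mem_filter] at hu
      exact (hXm j u).2 (Or.inl ⟨hu.1.2, hu.2⟩)
    rw [← Finset.sum_subset hsub]
    · apply Finset.sum_le_sum
      intro u hu
      rw [Finset.mem_filter, Finset.mem_filter] at hu
      have e1 : ∑ v ∈ univ \ X j, y u v = ∑ v ∈ (univ \ X j) ∩ CK, y u v := by
        symm
        apply Finset.sum_subset Finset.inter_subset_left
        intro v hv hv'
        by_contra hne0
        have hadj := hyG u v hne0
        rcases hkv : κ v with _ | i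
        · exact hv' (Finset.mem_inter.2 ⟨hv, (hCKm v).2 (Or.inl hkv)⟩)
        · by_cases hci : c i
          · exact hv' (Finset.mem_inter.2 ⟨hv, (hCKm v).2 (Or.inr ⟨i, hkv, hci⟩)⟩)
          · rw [Finset.mem_sdiff] at hv
            exact hv.2 ((hXm j v).2 (Or.inr ⟨i, hkv, hci, v, u, hkv, hu.1.2, hadj.symm, hu.2⟩))
      rw [e1]
      exact Finset.sum_le_sum_of_subset_of_nonneg Finset.inter_subset_right
        (fun v _ _ => hy0 u v)
    · intro u hu hu'
      have hku : ∃ i, κ u = some i ∧ ¬ c i ∧ ∃ u' w, κ u' = some i ∧ κ w = none ∧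
          G.Adj u' w ∧ π w = j := by
        rcases (hXm j u).1 hu with h | h
        · exfalso
          apply hu'
          rw [Finset.mem_filter, Finset.mem_filter]
          exact ⟨⟨Finset.mem_univ _, h.1⟩, h.2⟩
        · exact h
      obtain ⟨i, hi, hci, u', w, hu1, hw, hadj', hpw⟩ := hku
      apply Finset.sum_eq_zero
      intro v hv
      by_contra hne0
      have hadj := hyG u v hne0
      rw [Finset.mem_sdiff] at hv
      apply hv.2
      rw [hXm]
      rcases hκ u v i hadj hi with h | h
      · left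
        refine ⟨h, ?_⟩
        rw [← hpw]
        exact hc i hci u v u' w hi hu1 h hw hadj hadj'
      · right
        exact ⟨i, h, hci, u', w, hu1, hw, hadj', hpw⟩
  have h4 : ∑ j : J, (2 : ℝ) ≤
      ∑ j, ∑ u ∈ (univ.filter (fun u => κ u = none)).filter (fun u => π u = j),
        ∑ v ∈ CK, y u v := Finset.sum_le_sum fun j _ => h3 j
  rw [Finset.sum_fiberwise] at h4
  have h5 : ∑ j : J, (2 : ℝ) = 2 * (Fintype.card J : ℝ) := by
    simp [mul_comm]
  rw [h5] at h4
  refine h4.trans (le_of_eq ?_)
  have h6 : ∀ u, ∑ v ∈ CK, y u v = ∑ v ∈ univ.filter (fun v => κ v = none), y u v +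
      ∑ i, if c i then ∑ v ∈ univ.filter (fun v => κ v = some i), y u v else 0 := by
    intro u
    have e0 : ∑ v ∈ CK, y u v = ∑ v, if v ∈ CK then y u v else 0 := by
      rw [Finset.sum_ite_mem, Finset.univ_inter]
    rw [e0, split κ (fun v => if v ∈ CK then y u v else 0)]
    congr 1
    · apply Finset.sum_congr rfl
      intro v hv
      rw [Finset.mem_filter] at hv
      rw [if_pos ((hCKm v).2 (Or.inl hv.2))]
    · apply Finset.sum_congr rfl
      intro i _
      by_cases hci : c i
      · rw [if_pos hci]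
        apply Finset.sum_congr rfl
        intro v hv
        rw [Finset.mem_filter] at hv
        rw [if_pos ((hCKm v).2 (Or.inr ⟨i, hv.2, hci⟩))]
      · rw [if_neg hci]
        apply Finset.sum_eq_zero
        intro v hv
        rw [Finset.mem_filter] at hv
        rw [if_neg]
        intro h
        rcases (hCKm v).1 h with h | ⟨i', h, h'⟩
        · rw [h] at hv
          exact absurd hv.2 (by simp)
        · rw [h] at hv
          have := Option.some.inj hv.2
          rw [this] at h'
          exact hci h'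
  simp only [h6]
  rw [Finset.sum_add_distrib]
  congr 1
  rw [Finset.sum_comm]
  apply Finset.sum_congr rfl
  intro i _
  by_cases hci : c i
  · simp only [hci, if_true]
    rw [DD_symm κ y hys i]
  · simp only [hci, if_false]
    exact Finset.sum_const_zero

include hys hyG hκ in
theorem low_one (b : ι → ℝ) (hKS : 0 ≤ KS κ y) (hb : ∀ i, 2 * (b i - 1) ≤ II κ y i + DD κ y i)
    (hD : ∀ i, 2 ≤ DD κ y i) : 2 * ∑ i, b i ≤ ∑ u, ∑ v, y u v := by
  rw [tot G κ y hys hyG hκ, Finset.mul_sum]
  have : ∑ i, 2 * b i ≤ ∑ i, (II κ y i + 2 * DD κ y i) := by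
    apply Finset.sum_le_sum
    intro i _
    have := hb i
    have := hD i
    linarith
  linarith

include hys hy0 hyG hκ in
open Classical in
theorem low_many {J : Type} [Fintype J] [DecidableEq J] (π : V → J) (c : ι → Prop)
    (hyc : ∀ S : Finset V, S.Nonempty → S ≠ univ → 2 ≤ ∑ i ∈ S, ∑ j ∈ univ \ S, y i j)
    (hJ : ∀ j, ∃ k, κ k = none ∧ π k = j) (h2 : 2 ≤ Fintype.card J)
    (hc : ∀ i, ¬ c i → ∀ u v u' v', κ u = some i → κ u' = some i → κ v = none → κ v' = none →
      G.Adj u v → G.Adj u' v' → π v = π v')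
    (b : ι → ℝ) (hb : ∀ i, 2 * (b i - 1) ≤ II κ y i + DD κ y i)
    (hD : ∀ i, 2 ≤ DD κ y i) :
    2 * (∑ i, b i + (Fintype.card J : ℝ) - ∑ i, (if c i then (1 : ℝ) else 0)) ≤
      ∑ u, ∑ v, y u v := by
  rw [tot G κ y hys hyG hκ]
  have h1 := cuts G κ y hys hy0 hyG hκ π c hyc hJ h2 hc
  have h3 : ∑ i, (2 * b i - 2 * (if c i then (1 : ℝ) else 0)) +
      ∑ i, (if c i then DD κ y i else 0) ≤ ∑ i, (II κ y i + 2 * DD κ y i) := by
    rw [← Finset.sum_add_distrib]
    apply Finset.sum_le_sum
    intro i _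
    have := hb i
    have := hD i
    split_ifs <;> linarith
  rw [Finset.sum_sub_distrib, ← Finset.mul_sum, ← Finset.mul_sum] at h3
  linarith

end

end Pool.Agent.H542.UP
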