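import Pool.Agent.H542.UP.Up

/-!
# The pairs of the clique that join the components and repair the parities
-/

set_option autoImplicit false
set_option linter.unusedSectionVars false

namespace Pool.Agent.H542.UP

open Finset Pool.Agent.R553.SP

variable {V ι : Type} [Fintype V] [DecidableEq V] [Fintype ι] {κ : V → Option ι}

theorem up_one (f : ι → KK κ × KK κ) (hone : ∀ a b, gen f a b) :
    ∃ F : List (KK κ × KK κ), (∀ k, dg k F % 2 = degM f k % 2) ∧
      (∀ S : KK κ → Prop, (∀ i, (S (f i).1 ↔ S (f i).2)) → (∀ p ∈ F, (S p.1 ↔ S p.2)) →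
        ∀ a b, (S a ↔ S b)) ∧
      2 * F.length ≤ Fintype.card (KK κ) := by
  classical
  set T : Finset (KK κ) := univ.filter fun k => True ∧ degM f k % 2 = 1 with hT
  have hTc : T.card % 2 = 0 := handshake f (fun _ => True) (fun _ => Iff.rfl) T (by simp [hT])
  refine ⟨pu T.toList, ?_, ?_, ?_⟩
  · intro k
    rw [pu_dg T.toList k (by rw [Finset.length_toList]; exact hTc), cn_toList]
    rw [hT]
    simp only [Finset.mem_filter, Finset.mem_univ, true_and]
    split_ifs <;> omega
  · intro S hS _ a b
    exact gen_inv f S hS a b (hone a b)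
  · refine (pu_length _).trans ?_
    rw [Finset.length_toList]
    exact Finset.card_le_univ _

theorem up_many (f : ι → KK κ × KK κ) :
    ∃ F : List (KK κ × KK κ), (∀ k, dg k F % 2 = degM f k % 2) ∧
      (∀ S : KK κ → Prop, (∀ i, (S (f i).1 ↔ S (f i).2)) → (∀ p ∈ F, (S p.1 ↔ S p.2)) →
        ∀ a b, (S a ↔ S b)) ∧
      2 * (F.length : ℤ) ≤ (Fintype.card (KK κ) : ℤ) + Nat.card (Quotient (gen f)) := by
  classical
  set Q := Quotient (gen f) with hQ
  haveI : Fintype Q := Fintype.ofFinite _
  set mk : KK κ → Q := Quotient.mk (gen f) with hmk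
  set T : Q → Finset (KK κ) := fun c => univ.filter fun k => mk k = c ∧ degM f k % 2 = 1 with hT
  have hTc : ∀ c, (T c).card % 2 = 0 := by
    intro c
    refine handshake f (fun k => mk k = c) ?_ (T c) (by intro k; simp [hT])
    intro i
    have : mk (f i).1 = mk (f i).2 := Quotient.sound (gen_f f i)
    rw [this]
  set blk : Q → List (KK κ) := fun c => if (T c) = ∅ then [c.out, c.out] else (T c).toList with hblk
  have hmkout : ∀ c : Q, mk c.out = c := fun c => Quotient.out_eq c
  have hb1 : ∀ c, (blk c).length % 2 = 0 := by
    intro c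
    rw [hblk]
    simp only
    split_ifs with h
    · simp
    · rw [Finset.length_toList]
      exact hTc c
  have hb2 : ∀ c, ∀ k ∈ blk c, mk k = c := by
    intro c k hk
    rw [hblk] at hk
    simp only at hk
    split_ifs at hk with h
    · simp only [List.mem_cons, List.not_mem_nil, or_false, or_self] at hk
      rw [hk]
      exact hmkout c
    · rw [Finset.mem_toList, hT] at hk
      exact (Finset.mem_filter.1 hk).2.1
  have hb3 : ∀ c, blk c ≠ [] := by
    intro c
    rw [hblk]
    simp only
    split_ifs with h
    · simp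
    · intro h'
      exact h (by rw [← Finset.toList_eq_nil]; exact h')
  have hb4 : ∀ c k, cn k (blk c) % 2 = if k ∈ T c then 1 else 0 := by
    intro c k
    rw [hblk]
    simp only
    split_ifs with h h' h'
    · rw [h] at h'
      simp at h'
    · by_cases hk : c.out = k
      · simp [cn, hk]
      · simp [cn, hk]
    · rw [cn_toList, if_pos h']
    · rw [cn_toList, if_neg h']
  have hb5 : ∀ c, (blk c).length ≤ ((univ : Finset (KK κ)).filter fun k => mk k = c).card + 1 := by
    intro c
    rw [hblk]
    simp only
    split_ifs with h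
    · have : 0 < ((univ : Finset (KK κ)).filter fun k => mk k = c).card := by
        apply Finset.card_pos.2
        exact ⟨c.out, by simp [hmkout c]⟩
      simp only [List.length_cons, List.length_nil]
      omega
    · rw [Finset.length_toList]
      have : (T c).card ≤ ((univ : Finset (KK κ)).filter fun k => mk k = c).card := by
        apply Finset.card_le_card
        intro k hk
        rw [hT] at hk
        have := (Finset.mem_filter.1 hk).2.1
        simp [this]
      omega
  set B : List (List (KK κ)) := (univ : Finset Q).toList.map blk with hB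
  have hBm : ∀ b ∈ B, ∃ c, b = blk c := by
    intro b hb
    rw [hB] at hb
    obtain ⟨c, _, rfl⟩ := List.mem_map.1 hb
    exact ⟨c, rfl⟩
  have hBm' : ∀ c, blk c ∈ B := by
    intro c
    rw [hB]
    exact List.mem_map.2 ⟨c, by simp, rfl⟩
  have hev : ∀ b ∈ B, b.length % 2 = 0 := by
    intro b hb
    obtain ⟨c, rfl⟩ := hBm b hb
    exact hb1 c
  have hcount : ∀ k, cn k B.flatten % 2 = degM f k % 2 := by
    intro k
    rw [cn_flatten, hB, List.map_map]
    have e1 : (List.map (cn k ∘ blk) (univ : Finset Q).toList).sum =
        ∑ c, cn k (blk c) := Finset.sum_map_toList univ _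
    rw [e1, Finset.sum_nat_mod]
    have e2 : ∑ c, cn k (blk c) % 2 = ∑ c, if k ∈ T c then 1 else 0 :=
      Finset.sum_congr rfl fun c _ => hb4 c k
    rw [e2]
    have e3 : ∀ c, (if k ∈ T c then 1 else 0 : ℕ) =
        if c = mk k then (if degM f k % 2 = 1 then 1 else 0) else 0 := by
      intro c
      rw [hT]
      simp only [Finset.mem_filter, Finset.mem_univ, true_and]
      by_cases h1 : mk k = c
      · simp [h1]
      · have h2 : ¬ c = mk k := fun h => h1 h.symm
        simp [h1, h2]
    simp only [e3]
    rw [Finset.sum_ite_eq', if_pos (Finset.mem_univ _)]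
    split_ifs <;> omega
  have hlen2 : B.flatten.length % 2 = 0 := by
    rw [List.length_flatten, hB, List.map_map]
    have e1 : (List.map (List.length ∘ blk) (univ : Finset Q).toList).sum =
        ∑ c, (blk c).length := Finset.sum_map_toList univ _
    rw [e1, Finset.sum_nat_mod, Finset.sum_eq_zero (fun c _ => hb1 c), Nat.zero_mod]
  have hlen : (B.flatten.length : ℤ) ≤ (Fintype.card (KK κ) : ℤ) + Nat.card Q := by
    rw [List.length_flatten, hB, List.map_map]
    have e1 : (List.map (List.length ∘ blk) (univ : Finset Q).toList).sum =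
        ∑ c, (blk c).length := Finset.sum_map_toList univ _
    rw [e1]
    have e2 : ∑ c, (blk c).length ≤
        ∑ c : Q, (((univ : Finset (KK κ)).filter fun k => mk k = c).card + 1) :=
      Finset.sum_le_sum fun c _ => hb5 c
    have e3 : ∑ c : Q, (((univ : Finset (KK κ)).filter fun k => mk k = c).card + 1) =
        Fintype.card (KK κ) + Nat.card Q := by
      rw [Finset.sum_add_distrib, Nat.card_eq_fintype_card]
      congr 1
      · rw [← Finset.card_univ (α := KK κ)]
        exact (Finset.card_eq_sum_card_fiberwise (f := mk) (t := (univ : Finset Q))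
          (fun _ _ => Finset.mem_coe.2 (Finset.mem_univ _))).symm
      · simp
    rw [e3] at e2
    exact_mod_cast e2
  rcases hw : B.flatten with _ | ⟨x, t⟩
  · -- no classes
    refine ⟨[], ?_, ?_, ?_⟩
    · intro k
      have := hcount k
      rw [hw] at this
      rw [← this]
      simp [dg, cn]
    · intro S _ _ a b
      exfalso
      have h1 := hBm' (mk a)
      have h2 := hb3 (mk a)
      rcases hba : blk (mk a) with _ | ⟨y, u⟩
      · exact h2 hba
      · have : y ∈ B.flatten := List.mem_flatten.2 ⟨_, h1, by rw [hba]; simp⟩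
        rw [hw] at this
        simp at this
    · simp
      positivity
  · have hperm : (t ++ [x]).Perm B.flatten := by
      rw [hw]
      exact List.perm_append_singleton x t
    refine ⟨pu (t ++ [x]), ?_, ?_, ?_⟩
    · intro k
      rw [pu_dg _ _ (by rw [hperm.length_eq]; exact hlen2), cn_perm k hperm]
      exact hcount k
    · intro S hS hF a b
      have hS' : ∀ k l : KK κ, mk k = mk l → (S k ↔ S l) := by
        intro k l h
        exact gen_inv f S hS k l (Quotient.exact h)
      have h1 := pu_const S (B.flatten.length) B.flatten le_rfl (by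
        intro p hp
        obtain ⟨b, hb, h2, h3⟩ := pu_flatten B hev p hp
        obtain ⟨c, rfl⟩ := hBm b hb
        apply hS'
        rw [hb2 c _ h2, hb2 c _ h3]) (by
        intro p hp
        rw [hw] at hp
        exact hF p (pu_sub _ _ p hp))
      have h2 : ∀ k, ∃ l ∈ B.flatten, (S k ↔ S l) := by
        intro k
        obtain ⟨y, u, hyu⟩ := List.exists_cons_of_ne_nil (hb3 (mk k))
        have hy : y ∈ blk (mk k) := by rw [hyu]; simp
        refine ⟨y, List.mem_flatten.2 ⟨_, hBm' (mk k), hy⟩, ?_⟩
        apply hS'
        rw [hb2 _ _ hy]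
      obtain ⟨a', ha', h3⟩ := h2 a
      obtain ⟨b', hb', h4⟩ := h2 b
      rw [h3, h4]
      exact h1 a' ha' b' hb'
    · have h1 := pu_length (t ++ [x])
      rw [hperm.length_eq] at h1
      have h1' : (2 * (pu (t ++ [x])).length : ℤ) ≤ B.flatten.length := by exact_mod_cast h1
      exact h1'.trans hlen

end Pool.Agent.H542.UP
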