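import Pool.Agent.H542.UP.Rado
import Pool.Agent.H542.UP.Up2
import Pool.Agent.H542.UP.Low
import Pool.Agent.R553.SP.Route

/-!
# The bound in terms of the components
-/

set_option autoImplicit false
set_option linter.unusedSectionVars false

namespace Pool.Agent.H542.UP

open Finset Pool.Agent.R553.SP

section
variable {V ι : Type} [Fintype V] [DecidableEq V] [Fintype ι] [DecidableEq ι]
  (G : SimpleGraph V) (κ : V → Option ι) (y : V → V → ℝ)

/-- the points of a component -/
def CD (i : ι) : Finset V := univ.filter fun v => κ v = some i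

/-- a point of a component with a neighbour in the clique -/
def At (a : V) : Prop := ∃ k, κ k = none ∧ G.Adj k a

variable (hys : ∀ i j, y i j = y j i) (hy0 : ∀ i j, 0 ≤ y i j)
  (hyG : ∀ i j, y i j ≠ 0 → G.Adj i j)
  (hyc : ∀ S : Finset V, S.Nonempty → S ≠ univ → 2 ≤ ∑ i ∈ S, ∑ j ∈ univ \ S, y i j)
  (hκ : ∀ u v i, G.Adj u v → κ u = some i → κ v = none ∨ κ v = some i)

include hyG hyc in
theorem vcut (hn : 2 ≤ Fintype.card V) (u : V) : 2 ≤ ∑ v, y u v := by
  have h1 := hyc {u} (by simp) (by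
    intro h
    have : ({u} : Finset V).card = Fintype.card V := by rw [h, Finset.card_univ]
    rw [Finset.card_singleton] at this
    omega)
  rw [Finset.sum_singleton] at h1
  refine h1.trans (le_of_eq ?_)
  apply Finset.sum_subset (Finset.subset_univ _)
  intro v _ hv
  have : v = u := by
    by_contra h
    exact hv (by simp [h])
  rw [this]
  by_contra hne
  exact (hyG u u hne).ne rfl

include hyG hyc hκ in
theorem loc1 (hn : 2 ≤ Fintype.card V) (i : ι) :
    2 * ((CD κ i).card : ℝ) ≤ II κ y i + DD κ y i := by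
  unfold II DD CD
  rw [← Finset.sum_add_distrib]
  have : ∑ u ∈ univ.filter (fun v => κ v = some i), (2 : ℝ) ≤
      ∑ u ∈ univ.filter (fun v => κ v = some i),
        (∑ v ∈ univ.filter (fun v => κ v = some i), y u v +
          ∑ v ∈ univ.filter (fun v => κ v = none), y u v) := by
    apply Finset.sum_le_sum
    intro u hu
    rw [Finset.mem_filter] at hu
    have h1 := vcut G y hyG hyc hn u
    rw [row G κ y hyG hκ i u hu.2] at h1
    linarith
  rw [Finset.sum_const, nsmul_eq_mul] at this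
  linarith

include hyG hyc hκ in
theorem loc2 (i : ι) (hne : (CD κ i).Nonempty) (hK : ∃ k, κ k = none) : 2 ≤ DD κ y i := by
  have h1 := hyc (CD κ i) hne (by
    intro h
    obtain ⟨k, hk⟩ := hK
    have : k ∈ CD κ i := by rw [h]; exact Finset.mem_univ _
    unfold CD at this
    rw [Finset.mem_filter, hk] at this
    exact absurd this.2 (by simp))
  refine h1.trans (le_of_eq ?_)
  unfold DD CD
  apply Finset.sum_congr rfl
  intro u hu
  rw [Finset.mem_filter] at hu
  symm
  apply Finset.sum_subset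
  · intro v hv
    rw [Finset.mem_filter] at hv
    rw [Finset.mem_sdiff, Finset.mem_filter, hv.2]
    simp
  · intro v hv hv'
    by_contra hne0
    rw [Finset.mem_sdiff, Finset.mem_filter] at hv
    rcases hκ u v i (hyG u v hne0) hu.2 with h | h
    · exact hv' (by simp [h])
    · exact hv.2 ⟨Finset.mem_univ _, h⟩

include hys hy0 hyG hyc hκ in
theorem loc3 (hn : 2 ≤ Fintype.card V) (i : ι) (a : V) (ha : κ a = some i)
    (hat : ∀ b, κ b = some i → At G κ b → b = a) (h2 : 2 ≤ (CD κ i).card) :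
    2 * ((CD κ i).card : ℝ) ≤ II κ y i := by
  classical
  set D := CD κ i with hD
  have hDm : ∀ v, v ∈ D ↔ κ v = some i := by
    intro v
    rw [hD]
    unfold CD
    simp
  have haD : a ∈ D := (hDm a).2 ha
  have hrow : ∀ u ∈ D.erase a, ∑ v, y u v = ∑ v ∈ D, y u v := by
    intro u hu
    rw [Finset.mem_erase, hDm] at hu
    rw [row G κ y hyG hκ i u hu.2]
    have : ∑ v ∈ univ.filter (fun v => κ v = none), y u v = 0 := by
      apply Finset.sum_eq_zero
      intro v hv
      rw [Finset.mem_filter] at hv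
      by_contra hne
      exact hu.1 (hat u hu.2 ⟨v, hv.2, (hyG u v hne).symm⟩)
    rw [this, zero_add]
    rfl
  have hII : II κ y i = ∑ u ∈ D, ∑ v ∈ D, y u v := rfl
  rw [hII, ← Finset.sum_erase_add D _ haD]
  have e1 : ∑ u ∈ D.erase a, (2 : ℝ) ≤ ∑ u ∈ D.erase a, ∑ v ∈ D, y u v := by
    apply Finset.sum_le_sum
    intro u hu
    rw [← hrow u hu]
    exact vcut G y hyG hyc hn u
  rw [Finset.sum_const, nsmul_eq_mul, Finset.card_erase_of_mem haD,
    Nat.cast_sub (by omega : 1 ≤ D.card)] at e1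
  have e2 : 2 ≤ ∑ v ∈ D, y a v := by
    have h3 := hyc (D.erase a) (by
      rw [← Finset.card_pos, Finset.card_erase_of_mem haD]
      omega) (by
      intro h
      have : a ∈ D.erase a := by rw [h]; exact Finset.mem_univ _
      simp at this)
    have h4 : ∑ u ∈ D.erase a, ∑ v ∈ univ \ D.erase a, y u v ≤ ∑ u ∈ D.erase a, y u a := by
      apply Finset.sum_le_sum
      intro u hu
      have hu' := hu
      rw [Finset.mem_erase, hDm] at hu'
      have : ∑ v ∈ univ \ D.erase a, y u v = ∑ v ∈ {a}, y u v := by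
        symm
        apply Finset.sum_subset
        · intro v hv
          rw [Finset.mem_singleton] at hv
          rw [hv]
          simp
        · intro v hv hv'
          by_contra hne0
          rw [Finset.mem_singleton] at hv'
          rw [Finset.mem_sdiff, Finset.mem_erase, hDm] at hv
          rcases hκ u v i (hyG u v hne0) hu'.2 with h | h
          · exact hu'.1 (hat u hu'.2 ⟨v, h, (hyG u v hne0).symm⟩)
          · exact hv.2 ⟨hv', h⟩
      rw [this, Finset.sum_singleton]
    have h5 : ∑ u ∈ D.erase a, y u a ≤ ∑ v ∈ D, y a v := by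
      rw [← Finset.sum_erase_add D _ haD]
      have : ∑ u ∈ D.erase a, y u a = ∑ u ∈ D.erase a, y a u :=
        Finset.sum_congr rfl fun u _ => hys u a
      rw [this]
      have := hy0 a a
      linarith
    linarith
  push_cast at e1 ⊢
  linarith

/-- The bound for a graph with a clique (the points with `κ = none`) and covering walks. -/
theorem main_abs (hn : 2 ≤ Fintype.card V) (hκs : ∀ i, ∃ v, κ v = some i)
    (hKne : Nonempty (KK κ))
    (hκ : ∀ u v i, G.Adj u v → κ u = some i → κ v = none ∨ κ v = some i)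
    (hat : ∀ i, ∃ a, κ a = some i ∧ At G κ a)
    (d : V → V → ℝ) (hds : ∀ i j, d i j = d j i) (htri : ∀ i j k, d i k ≤ d i j + d j k)
    (hd1 : ∀ u v, G.Adj u v → d u v = 1) (hKd : ∀ u v : KK κ, d u v ≤ 1)
    (hgeo : ∀ i j, ∃ p : G.Walk i j, (p.length : ℝ) ≤ d i j)
    (ρ : ℝ) (hρ : 5 / 4 ≤ ρ)
    (h1 : ∀ i a b, κ a = some i → κ b = some i → At G κ a → At G κ b → a ≠ b →
      ∃ p : G.Walk a b, (∀ v, κ v = some i → v ∈ p.support) ∧
        (p.length : ℝ) ≤ ρ * ((CD κ i).card - 1))
    (h2 : ∀ i a, κ a = some i → At G κ a → (∀ b, κ b = some i → At G κ b → b = a) →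
      2 ≤ (CD κ i).card → ∃ p : G.Walk a a, (∀ v, κ v = some i → v ∈ p.support) ∧
        (p.length : ℝ) ≤ 2 + ρ * ((CD κ i).card - 2))
    (x : V → V → ℝ) (hxs : ∀ i j, x i j = x j i) (hx0 : ∀ i j, 0 ≤ x i j)
    (hxc : ∀ S : Finset V, S.Nonempty → S ≠ univ → 2 ≤ ∑ i ∈ S, ∑ j ∈ Sᶜ, x i j) :
    ∃ g : Fin (Fintype.card V) ≃ V, ∑ i, d (g i) (g (finRotate _ i)) ≤
      ρ * ((1 / 2 : ℝ) * ∑ i, ∑ j, d i j * x i j) := by
  classical
  -- the point of the linear program is moved to the edges
  have hdart : ∀ {i j : V} (p : G.Walk i j), (p.darts.map fun e => d e.fst e.snd).sum =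
      p.length := by
    intro i j p
    induction p with
    | nil => simp
    | cons h p ih =>
      simp only [SimpleGraph.Walk.darts_cons, List.map_cons, List.sum_cons,
        SimpleGraph.Walk.length_cons, Nat.cast_add, Nat.cast_one]
      rw [ih, hd1 _ _ h]
      ring
  obtain ⟨y, hys, hy0, hyG, hyc, hyd⟩ := route G d x 1 hds hxs hx0 hxc (by
    intro i j _
    obtain ⟨p, hp⟩ := hgeo i j
    exact ⟨p, by rw [hdart p]; linarith⟩)
  have hyd' : ∑ i, ∑ j, y i j ≤ ∑ i, ∑ j, d i j * x i j := by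
    rw [one_mul] at hyd
    refine (le_of_eq ?_).trans hyd
    apply Finset.sum_congr rfl
    intro i _
    apply Finset.sum_congr rfl
    intro j _
    by_cases h : y i j = 0
    · rw [h, mul_zero]
    · rw [hd1 i j (hyG i j h), one_mul]
  set s : ι → ℕ := fun i => (CD κ i).card with hs
  have hs1 : ∀ i, 1 ≤ s i := by
    intro i
    obtain ⟨v, hv⟩ := hκs i
    apply Finset.card_pos.2
    exact ⟨v, by unfold CD; simp [hv]⟩
  obtain ⟨k0⟩ := hKne
  have hKex : ∃ k, κ k = none := ⟨k0, k0.2⟩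
  -- the number of points
  have hcard : (Fintype.card V : ℝ) = Fintype.card (KK κ) + ∑ i, (s i : ℝ) := by
    have e1 := split κ (fun _ => (1 : ℝ))
    simp only [Finset.sum_const, nsmul_eq_mul, mul_one, Finset.card_univ] at e1
    rw [e1]
    congr 1
    rw [Fintype.card_subtype]
  -- the types of the components
  set single : ι → Prop := fun i => s i = 1 with hsingle
  set multi : ι → Prop := fun i => ∃ a b, a ≠ b ∧ κ a = some i ∧ κ b = some i ∧ At G κ a ∧
    At G κ b with hmulti
  set β : ι → ℝ := fun i => if multi i then ρ * (s i - 1) + 2 else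
    (if s i = 1 then 2 else 4 + ρ * (s i - 2)) with hβ
  set ℓ : ι → ℝ := fun i => if multi i then s i + 1 else
    (if s i = 1 then 2 else s i + 2) with hℓ
  have hβℓ : ∀ i, β i ≤ (1 / 2) * s i + (ρ - 1 / 2) * ℓ i := by
    intro i
    rw [hβ, hℓ]
    simp only
    split_ifs with h h'
    · have : (0:ℝ) ≤ s i := by positivity
      nlinarith
    · rw [h']
      push_cast
      linarith
    · nlinarith
  have hD2 : ∀ i, 2 ≤ DD κ y i := fun i => loc2 G κ y hyG hyc hκ i
    (Finset.card_pos.1 (hs1 i)) hKex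
  have hℓlow : ∀ i, 2 * (ℓ i - 1) ≤ II κ y i + DD κ y i := by
    intro i
    have e1 := loc1 G κ y hyG hyc hκ hn i
    rw [hℓ]
    simp only
    split_ifs with h h'
    · have : 2 * ((s i : ℝ) + 1 - 1) = 2 * ((CD κ i).card : ℝ) := by rw [hs]; ring
      rw [this]
      exact e1
    · have : ((CD κ i).card : ℝ) = 1 := by
        have : (CD κ i).card = 1 := h'
        rw [this]
        norm_num
      rw [this] at e1
      linarith
    · obtain ⟨a, ha, hAa⟩ := hat i
      have hone : ∀ b, κ b = some i → At G κ b → b = a := by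
        intro b hb hAb
        by_contra hne
        exact h ⟨b, a, hne, hb, ha, hAb, hAa⟩
      have e2 := loc3 G κ y hys hy0 hyG hyc hκ hn i a ha hone (by
        have := hs1 i
        have h3 : s i = (CD κ i).card := rfl
        omega)
      have e3 := hD2 i
      have : 2 * ((s i : ℝ) + 2 - 1) = 2 * ((CD κ i).card : ℝ) + 2 := by rw [hs]; ring
      rw [this]
      linarith
  -- allowed pairs
  set A : ι → Finset (KK κ × KK κ) := fun i => univ.filter fun e =>
    ∃ w : G.Walk (e.1 : V) (e.2 : V), (w.length : ℝ) ≤ β i ∧ ∀ v, κ v = some i → v ∈ w.support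
    with hA
  have hAm : ∀ i e, e ∈ A i ↔ ∃ w : G.Walk (e.1 : V) (e.2 : V), (w.length : ℝ) ≤ β i ∧
      ∀ v, κ v = some i → v ∈ w.support := by
    intro i e
    rw [hA]
    simp
  -- pairs via two different points
  have hpair1 : ∀ i a b (k l : KK κ), κ a = some i → κ b = some i → G.Adj k a → G.Adj l b →
      a ≠ b → (k, l) ∈ A i := by
    intro i a b k l ha hb hka hlb hne
    obtain ⟨p, hp, hpl⟩ := h1 i a b ha hb ⟨k, k.2, hka⟩ ⟨l, l.2, hlb⟩ hne
    rw [hAm]
    refine ⟨SimpleGraph.Walk.cons hka (p.concat hlb.symm), ?_, ?_⟩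
    · rw [SimpleGraph.Walk.length_cons, SimpleGraph.Walk.length_concat]
      have hm : multi i := ⟨a, b, hne, ha, hb, ⟨k, k.2, hka⟩, ⟨l, l.2, hlb⟩⟩
      rw [hβ]
      simp only
      rw [if_pos hm]
      push_cast
      have : (s i : ℝ) = (CD κ i).card := rfl
      rw [this]
      linarith
    · intro v hv
      rw [SimpleGraph.Walk.support_cons, SimpleGraph.Walk.support_concat]
      simp [hp v hv]
  -- pairs via one point
  have hpair2 : ∀ i a (k l : KK κ), ¬ multi i → κ a = some i → G.Adj k a → G.Adj l a →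
      (k, l) ∈ A i := by
    intro i a k l hm ha hka hla
    have hone : ∀ b, κ b = some i → At G κ b → b = a := by
      intro b hb hAb
      by_contra hne
      exact hm ⟨b, a, hne, hb, ha, hAb, ⟨k, k.2, hka⟩⟩
    rw [hAm]
    by_cases hsi : s i = 1
    · refine ⟨SimpleGraph.Walk.cons hka (SimpleGraph.Walk.cons hla.symm SimpleGraph.Walk.nil),
        ?_, ?_⟩
      · rw [hβ]
        simp only
        rw [if_neg hm, if_pos hsi]
        simp
      · intro v hv
        have : v = a := by
          have h3 : (CD κ i).card ≤ 1 := le_of_eq hsi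
          exact Finset.card_le_one.1 h3 v (by unfold CD; simp [hv]) a (by unfold CD; simp [ha])
        rw [this]
        simp
    · obtain ⟨p, hp, hpl⟩ := h2 i a ha ⟨k, k.2, hka⟩ hone (by
        have := hs1 i
        have h3 : s i = (CD κ i).card := rfl
        omega)
      refine ⟨SimpleGraph.Walk.cons hka (p.concat hla.symm), ?_, ?_⟩
      · rw [SimpleGraph.Walk.length_cons, SimpleGraph.Walk.length_concat]
        rw [hβ]
        simp only
        rw [if_neg hm, if_neg hsi]
        push_cast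
        have : (s i : ℝ) = (CD κ i).card := rfl
        rw [this]
        linarith
      · intro v hv
        rw [SimpleGraph.Walk.support_cons, SimpleGraph.Walk.support_concat]
        simp [hp v hv]
  have hAne : ∀ i, (A i).Nonempty := by
    intro i
    obtain ⟨a, ha, k, hk, hka⟩ := hat i
    by_cases hm : multi i
    · obtain ⟨b, c, hbc, hb, hc, ⟨k1, hk1, hkb⟩, ⟨k2, hk2, hkc⟩⟩ := hm
      exact ⟨_, hpair1 i b c ⟨k1, hk1⟩ ⟨k2, hk2⟩ hb hc hkb hkc hbc⟩
    · exact ⟨_, hpair2 i a ⟨k, hk⟩ ⟨k, hk⟩ hm ha hka hka⟩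
  -- crossing
  have hcross : ∀ (P : Setoid (KK κ)) i, ¬ Cr P (A i) → ∀ a b (k l : KK κ), κ a = some i →
      κ b = some i → G.Adj k a → G.Adj l b → P k l := by
    intro P i hnc a b k l ha hb hka hlb
    have hno : ∀ k l : KK κ, (k, l) ∈ A i → P k l := by
      intro k l hkl
      by_contra hcon
      exact hnc ⟨(k, l), hkl, hcon⟩
    by_cases hab : a = b
    · subst hab
      by_cases hm : multi i
      · obtain ⟨c, hca, hc, m, hm1, hmc⟩ : ∃ c, c ≠ a ∧ κ c = some i ∧ At G κ c := by
          obtain ⟨b, c, hbc, hb, hc, hAb, hAc⟩ := hm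
          by_cases h : b = a
          · exact ⟨c, fun h' => hbc (h.trans h'.symm), hc, hAc⟩
          · exact ⟨b, h, hb, hAb⟩
        have e1 := hno k ⟨m, hm1⟩ (hpair1 i a c k ⟨m, hm1⟩ ha hc hka hmc hca.symm)
        have e2 := hno l ⟨m, hm1⟩ (hpair1 i a c l ⟨m, hm1⟩ ha hc hlb hmc hca.symm)
        exact P.trans' e1 (P.symm' e2)
      · exact hno k l (hpair2 i a k l hm ha hka hlb)
    · exact hno k l (hpair1 i a b k l ha hb hka hlb hab)
  obtain ⟨f, hf, P, hP⟩ := rado A hAne
  have hfw : ∀ i, ∃ w : G.Walk ((f i).1 : V) ((f i).2 : V), (w.length : ℝ) ≤ β i ∧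
      ∀ v, κ v = some i → v ∈ w.support := fun i => (hAm i (f i)).1 (hf i)
  choose w hw1 hw2 using hfw
  have hq := hP (gen f) (gen_f f)
  have hsumw : ∑ i, ((w i).length : ℝ) ≤ ∑ i, β i := Finset.sum_le_sum fun i _ => hw1 i
  have hsumβ : ∑ i, β i ≤ (1 / 2) * ∑ i, (s i : ℝ) + (ρ - 1 / 2) * ∑ i, ℓ i := by
    rw [Finset.mul_sum, Finset.mul_sum, ← Finset.sum_add_distrib]
    exact Finset.sum_le_sum fun i _ => hβℓ i
  -- the bound `n`
  have hYn : 2 * (Fintype.card V : ℝ) ≤ ∑ i, ∑ j, y i j := by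
    have : ∑ u : V, (2 : ℝ) ≤ ∑ u, ∑ v, y u v :=
      Finset.sum_le_sum fun u _ => vcut G y hyG hyc hn u
    rw [Finset.sum_const, nsmul_eq_mul, Finset.card_univ] at this
    linarith
  have hKS : 0 ≤ KS κ y := Finset.sum_nonneg fun u _ => Finset.sum_nonneg fun v _ => hy0 u v
  by_cases hone : ∀ a b, gen f a b
  · obtain ⟨F, hF1, hF2, hF3⟩ := up_one f hone
    obtain ⟨g, hg⟩ := up_core G κ hn ⟨k0⟩ d hds htri (fun u v h => le_of_eq (hd1 u v h)) hKd f w
      hw2 F hF1 hF2
    refine ⟨g, hg.trans ?_⟩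
    have e1 := low_one G κ y hys hyG hκ ℓ hKS hℓlow hD2
    have e2 : 2 * (F.length : ℝ) ≤ Fintype.card (KK κ) := by exact_mod_cast hF3
    have e3 : (ρ - 1 / 2) * (2 * ∑ i, ℓ i) ≤ (ρ - 1 / 2) * ∑ i, ∑ j, y i j :=
      mul_le_mul_of_nonneg_left e1 (by linarith)
    have e4 : ρ * ∑ i, ∑ j, y i j ≤ ρ * ∑ i, ∑ j, d i j * x i j :=
      mul_le_mul_of_nonneg_left hyd' (by linarith)
    rw [hcard] at hYn
    nlinarith
  · push Not at hone
    obtain ⟨a, b, hab⟩ := hone
    obtain ⟨F, hF1, hF2, hF3⟩ := up_many f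
    obtain ⟨g, hg⟩ := up_core G κ hn ⟨k0⟩ d hds htri (fun u v h => le_of_eq (hd1 u v h)) hKd f w
      hw2 F hF1 hF2
    refine ⟨g, hg.trans ?_⟩
    haveI : Fintype (Quotient P) := Fintype.ofFinite _
    haveI : Fintype (Quotient (gen f)) := Fintype.ofFinite _
    have hq2 : (2 : ℤ) ≤ nc (gen f) := by
      unfold nc
      rw [Nat.card_eq_fintype_card]
      have : 1 < Fintype.card (Quotient (gen f)) := by
        rw [Fintype.one_lt_card_iff]
        refine ⟨Quotient.mk _ a, Quotient.mk _ b, ?_⟩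
        intro h
        exact hab (Quotient.exact h)
      omega
    have hcn : (0 : ℤ) ≤ ∑ i, (if Cr P (A i) then (1 : ℤ) else 0) :=
      Finset.sum_nonneg fun i _ => by split_ifs <;> norm_num
    have hP2 : 2 ≤ Fintype.card (Quotient P) := by
      have : nc P = (Fintype.card (Quotient P) : ℤ) := by
        unfold nc
        rw [Nat.card_eq_fintype_card]
      omega
    set π : V → Quotient P := fun v => if h : κ v = none then Quotient.mk P ⟨v, h⟩ else
      Quotient.mk P k0 with hπ
    have hπk : ∀ v (h : κ v = none), π v = Quotient.mk P ⟨v, h⟩ := by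
      intro v h
      rw [hπ]
      simp only
      rw [dif_pos h]
    have e1 := low_many G κ y hys hy0 hyG hκ π (fun i => Cr P (A i)) hyc (by
      intro j
      induction j using Quotient.inductionOn with
      | h k => exact ⟨k, k.2, hπk k k.2⟩) hP2 (by
      intro i hnc u v u' v' hu hu' hv hv' huv huv'
      rw [hπk v hv, hπk v' hv']
      exact Quotient.sound (hcross P i hnc u u' ⟨v, hv⟩ ⟨v', hv'⟩ hu hu' huv.symm huv'.symm))
      ℓ hℓlow hD2
    have e2 : 2 * (F.length : ℝ) ≤ Fintype.card (KK κ) + (nc (gen f) : ℝ) := by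
      have : 2 * (F.length : ℤ) ≤ (Fintype.card (KK κ) : ℤ) + nc (gen f) := hF3
      exact_mod_cast this
    have hqr : (nc (gen f) : ℝ) ≤ (Fintype.card (Quotient P) : ℝ) -
        ∑ i, (if Cr P (A i) then (1 : ℝ) else 0) := by
      have e5 : (nc (gen f) : ℤ) ≤ (Fintype.card (Quotient P) : ℤ) -
          ∑ i, (if Cr P (A i) then (1 : ℤ) else 0) := by
        refine hq.trans (le_of_eq ?_)
        congr 1
        unfold nc
        rw [Nat.card_eq_fintype_card]
      have e6 : ((nc (gen f) : ℤ) : ℝ) ≤ (((Fintype.card (Quotient P) : ℤ) -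
          ∑ i, (if Cr P (A i) then (1 : ℤ) else 0) : ℤ) : ℝ) := Int.cast_le.2 e5
      push_cast at e6
      exact e6
    have e7 : 2 * (∑ i, ℓ i + (nc (gen f) : ℝ)) ≤ ∑ i, ∑ j, y i j := by
      refine le_trans ?_ e1
      linarith
    have e3 : (ρ - 1 / 2) * (2 * (∑ i, ℓ i + (nc (gen f) : ℝ))) ≤
        (ρ - 1 / 2) * ∑ i, ∑ j, y i j :=
      mul_le_mul_of_nonneg_left e7 (by linarith)
    have e4 : ρ * ∑ i, ∑ j, y i j ≤ ρ * ∑ i, ∑ j, d i j * x i j :=
      mul_le_mul_of_nonneg_left hyd' (by linarith)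
    have e8 : (0 : ℝ) ≤ (nc (gen f) : ℝ) := by exact_mod_cast (by omega : (0:ℤ) ≤ nc (gen f))
    rw [hcard] at hYn
    nlinarith

end

end Pool.Agent.H542.UP
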