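import Mathlib

/-!
# A choice of one pair from each set that makes as few components as possible

A direct proof of the instance of Rado's theorem for graphic matroids that we need.
-/

set_option autoImplicit false
set_option linter.unusedSectionVars false

namespace Pool.Agent.H542.UP

open Finset

variable {α ι : Type} [Fintype α] [Fintype ι]

/-- number of classes -/
noncomputable def nc (s : Setoid α) : ℤ := (Nat.card (Quotient s) : ℤ)

/-- functions constant on the classes -/
def W (s : Setoid α) : Submodule ℚ (α → ℚ) where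
  carrier := {f | ∀ a b, s a b → f a = f b}
  add_mem' := by
    intro f g hf hg a b h
    simp only [Pi.add_apply]
    rw [hf a b h, hg a b h]
  zero_mem' := by
    intro a b _
    rfl
  smul_mem' := by
    intro c f hf a b h
    simp only [Pi.smul_apply]
    rw [hf a b h]

/-- the functions constant on the classes are the functions on the quotient -/
noncomputable def We (s : Setoid α) : W s ≃ₗ[ℚ] (Quotient s → ℚ) where
  toFun f := fun q => Quotient.lift f.1 (fun a b h => f.2 a b h) q
  map_add' := by
    intro f g
    funext q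
    induction q using Quotient.inductionOn
    rfl
  map_smul' := by
    intro c f
    funext q
    induction q using Quotient.inductionOn
    rfl
  invFun g := ⟨fun a => g (Quotient.mk s a), fun a b h => by
    show g (Quotient.mk s a) = g (Quotient.mk s b)
    rw [Quotient.sound h]⟩
  left_inv := by
    intro f
    rfl
  right_inv := by
    intro g
    funext q
    induction q using Quotient.inductionOn
    rfl

theorem finrank_W (s : Setoid α) : (Module.finrank ℚ (W s) : ℤ) = nc s := by
  classical
  unfold nc
  haveI : Fintype (Quotient s) := Fintype.ofFinite _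
  rw [(We s).finrank_eq, Module.finrank_fintype_fun_eq_card, Nat.card_eq_fintype_card]

theorem nc_semi (s t : Setoid α) : nc s + nc t ≤ nc (s ⊓ t) + nc (s ⊔ t) := by
  have h1 : W s ⊓ W t ≤ W (s ⊔ t) := by
    intro f hf a b hab
    have hk : s ⊔ t ≤ Setoid.ker f := by
      apply sup_le
      · intro x y h
        exact hf.1 x y h
      · intro x y h
        exact hf.2 x y h
    exact hk hab
  have h2 : W s ⊔ W t ≤ W (s ⊓ t) := by
    apply sup_le
    · intro f hf a b hab
      exact hf a b hab.1
    · intro f hf a b hab
      exact hf a b hab.2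
  have h3 := Submodule.finrank_sup_add_finrank_inf_eq (W s) (W t)
  have h4 := Submodule.finrank_mono h1
  have h5 := Submodule.finrank_mono h2
  rw [← finrank_W, ← finrank_W, ← finrank_W, ← finrank_W]
  omega

/-- a set of pairs crosses a partition -/
def Cr (s : Setoid α) (A : Finset (α × α)) : Prop := ∃ e ∈ A, ¬ s e.1 e.2

open Classical in
/-- number of classes minus number of crossing sets -/
noncomputable def phi (A : ι → Finset (α × α)) (s : Setoid α) : ℤ :=
  nc s - ∑ i, (if Cr s (A i) then (1 : ℤ) else 0)

open Classical in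
theorem shrink (A : ι → Finset (α × α)) (q : ℤ) (hq : ∀ s, phi A s ≤ q) (i : ι)
    (e1 e2 : α × α) (h1 : e1 ∈ A i) (h2 : e2 ∈ A i) (hne : e1 ≠ e2) :
    (∀ s, phi (Function.update A i ((A i).erase e1)) s ≤ q) ∨
      (∀ s, phi (Function.update A i ((A i).erase e2)) s ≤ q) := by
  by_contra hcon
  push Not at hcon
  obtain ⟨⟨s1, hs1⟩, ⟨s2, hs2⟩⟩ := hcon
  -- the sum over the other indices
  set R : Setoid α → ℤ := fun s => ∑ j ∈ univ.erase i, (if Cr s (A j) then (1 : ℤ) else 0) with hR
  have hphi : ∀ (X : Finset (α × α)) (s : Setoid α), phi (Function.update A i X) s =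
      nc s - (if Cr s X then (1 : ℤ) else 0) - R s := by
    intro X s
    unfold phi
    rw [← Finset.add_sum_erase univ _ (Finset.mem_univ i)]
    simp only [Function.update_self]
    have : ∑ j ∈ univ.erase i, (if Cr s (Function.update A i X j) then (1 : ℤ) else 0) = R s := by
      apply Finset.sum_congr rfl
      intro j hj
      rw [Function.update_of_ne (Finset.ne_of_mem_erase hj)]
    rw [this]
    ring
  have hphi0 : ∀ s : Setoid α, phi A s = nc s - (if Cr s (A i) then (1 : ℤ) else 0) - R s := by
    intro s
    have := hphi (A i) s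
    rwa [Function.update_eq_self] at this
  rw [hphi] at hs1 hs2
  have g1 := hq s1
  have g2 := hq s2
  rw [hphi0] at g1 g2
  -- only `e1` crosses `s1`
  have c1 : Cr s1 (A i) ∧ ¬ Cr s1 ((A i).erase e1) := by
    by_cases ha : Cr s1 ((A i).erase e1)
    · exfalso
      have : Cr s1 (A i) := by
        obtain ⟨e, he, h⟩ := ha
        exact ⟨e, Finset.mem_of_mem_erase he, h⟩
      rw [if_pos ha] at hs1
      rw [if_pos this] at g1
      omega
    · refine ⟨?_, ha⟩
      by_contra hb
      rw [if_neg ha] at hs1
      rw [if_neg hb] at g1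
      omega
  have c2 : Cr s2 (A i) ∧ ¬ Cr s2 ((A i).erase e2) := by
    by_cases ha : Cr s2 ((A i).erase e2)
    · exfalso
      have : Cr s2 (A i) := by
        obtain ⟨e, he, h⟩ := ha
        exact ⟨e, Finset.mem_of_mem_erase he, h⟩
      rw [if_pos ha] at hs2
      rw [if_pos this] at g2
      omega
    · refine ⟨?_, ha⟩
      by_contra hb
      rw [if_neg ha] at hs2
      rw [if_neg hb] at g2
      omega
  rw [if_neg c1.2] at hs1
  rw [if_neg c2.2] at hs2
  have k1 := hq (s1 ⊓ s2)
  have k2 := hq (s1 ⊔ s2)
  rw [hphi0] at k1 k2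
  have k3 : ¬ Cr (s1 ⊔ s2) (A i) := by
    rintro ⟨e, he, hx⟩
    by_cases h : e = e1
    · have : s2 e.1 e.2 := by
        by_contra hcc
        exact c2.2 ⟨e, Finset.mem_erase.2 ⟨by rw [h]; exact hne, he⟩, hcc⟩
      exact hx ((le_sup_right : s2 ≤ s1 ⊔ s2) this)
    · have : s1 e.1 e.2 := by
        by_contra hcc
        exact c1.2 ⟨e, Finset.mem_erase.2 ⟨h, he⟩, hcc⟩
      exact hx ((le_sup_left : s1 ≤ s1 ⊔ s2) this)
  rw [if_neg k3] at k2
  have k4 : (if Cr (s1 ⊓ s2) (A i) then (1 : ℤ) else 0) ≤ 1 := by split_ifs <;> norm_num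
  have k5 : R (s1 ⊓ s2) + R (s1 ⊔ s2) ≤ R s1 + R s2 := by
    rw [hR]
    simp only
    rw [← Finset.sum_add_distrib, ← Finset.sum_add_distrib]
    apply Finset.sum_le_sum
    intro j _
    have m1 : Cr (s1 ⊓ s2) (A j) → Cr s1 (A j) ∨ Cr s2 (A j) := by
      rintro ⟨e, he, hx⟩
      by_cases h : s1 e.1 e.2
      · right
        refine ⟨e, he, fun h' => hx ⟨h, h'⟩⟩
      · left
        exact ⟨e, he, h⟩
    have m2 : Cr (s1 ⊔ s2) (A j) → Cr s1 (A j) ∧ Cr s2 (A j) := by
      rintro ⟨e, he, hx⟩
      exact ⟨⟨e, he, fun h => hx ((le_sup_left : s1 ≤ s1 ⊔ s2) h)⟩,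
        ⟨e, he, fun h => hx ((le_sup_right : s2 ≤ s1 ⊔ s2) h)⟩⟩
    by_cases a1 : Cr s1 (A j) <;> by_cases a2 : Cr s2 (A j) <;>
      by_cases a3 : Cr (s1 ⊓ s2) (A j) <;> by_cases a4 : Cr (s1 ⊔ s2) (A j) <;>
      first
        | (exfalso; tauto)
        | (simp only [a1, a2, a3, a4, if_true, if_false]; norm_num)
  have k6 := nc_semi s1 s2
  omega

open Classical in
theorem rado_aux (q : ℤ) (N : ℕ) : ∀ (A : ι → Finset (α × α)), (∀ i, (A i).Nonempty) →
    (∀ s, phi A s ≤ q) → ∑ i, (A i).card ≤ N →
    ∃ f : ι → α × α, (∀ i, f i ∈ A i) ∧ ∀ s : Setoid α, (∀ i, s (f i).1 (f i).2) → nc s ≤ q := by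
  induction N with
  | zero =>
    intro A hA hq hN
    have h0 : ∀ i : ι, False := by
      intro i
      have := Finset.card_pos.2 (hA i)
      have := Finset.single_le_sum (f := fun i => (A i).card) (fun _ _ => Nat.zero_le _)
        (Finset.mem_univ i)
      omega
    refine ⟨fun i => (h0 i).elim, fun i => (h0 i).elim, ?_⟩
    intro s _
    have := hq s
    unfold phi at this
    rw [Finset.sum_eq_zero (fun i _ => (h0 i).elim)] at this
    omega
  | succ N ih =>
    intro A hA hq hN
    by_cases h : ∃ i, 2 ≤ (A i).card
    · obtain ⟨i, hi⟩ := h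
      obtain ⟨e1, h1, e2, h2, hne⟩ := Finset.one_lt_card.1 hi
      have key : ∀ e ∈ A i, (∀ s, phi (Function.update A i ((A i).erase e)) s ≤ q) →
          ∃ f : ι → α × α, (∀ i, f i ∈ A i) ∧
            ∀ s : Setoid α, (∀ i, s (f i).1 (f i).2) → nc s ≤ q := by
        intro e he hs
        obtain ⟨f, hf, hf2⟩ := ih (Function.update A i ((A i).erase e)) (by
          intro j
          by_cases hj : j = i
          · subst hj
            rw [Function.update_self, ← Finset.card_pos, Finset.card_erase_of_mem he]
            omega
          · rw [Function.update_of_ne hj]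
            exact hA j) hs (by
          have e1 : ∑ j, (Function.update A i ((A i).erase e) j).card + 1 ≤ ∑ j, (A j).card := by
            rw [← Finset.add_sum_erase univ _ (Finset.mem_univ i),
              ← Finset.add_sum_erase univ (fun j => (A j).card) (Finset.mem_univ i)]
            have e2 : ∑ j ∈ univ.erase i, (Function.update A i ((A i).erase e) j).card =
                ∑ j ∈ univ.erase i, (A j).card := by
              apply Finset.sum_congr rfl
              intro j hj
              rw [Function.update_of_ne (Finset.ne_of_mem_erase hj)]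
            rw [e2, Function.update_self, Finset.card_erase_of_mem he]
            omega
          omega)
        refine ⟨f, ?_, hf2⟩
        intro j
        have := hf j
        by_cases hj : j = i
        · subst hj
          rw [Function.update_self] at this
          exact Finset.mem_of_mem_erase this
        · rwa [Function.update_of_ne hj] at this
      rcases shrink A q hq i e1 e2 h1 h2 hne with hs | hs
      · exact key e1 h1 hs
      · exact key e2 h2 hs
    · push Not at h
      choose f hf using hA
      refine ⟨f, hf, ?_⟩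
      intro s hs
      have := hq s
      unfold phi at this
      have e0 : ∑ i, (if Cr s (A i) then (1 : ℤ) else 0) = 0 := by
        apply Finset.sum_eq_zero
        intro i _
        rw [if_neg]
        rintro ⟨e, he, hx⟩
        have h1 : (A i).card ≤ 1 := by have := h i; omega
        have : e = f i := Finset.card_le_one.1 h1 e he (f i) (hf i)
        rw [this] at hx
        exact hx (hs i)
      rw [e0] at this
      omega

open Classical in
/-- one pair can be chosen in each set such that some partition `P` satisfies: every partition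
into more than `|P|` minus the number of sets that cross `P` classes is crossed by a chosen pair -/
theorem rado (A : ι → Finset (α × α)) (hA : ∀ i, (A i).Nonempty) :
    ∃ f : ι → α × α, (∀ i, f i ∈ A i) ∧ ∃ P : Setoid α,
      ∀ s : Setoid α, (∀ i, s (f i).1 (f i).2) →
        nc s ≤ nc P - ∑ i, (if Cr P (A i) then (1 : ℤ) else 0) := by
  haveI : Finite (Setoid α) := by
    apply Finite.of_injective (β := α → α → Prop) (fun s => s.r)
    intro s t h
    exact Setoid.ext fun a b => by
      have := congrFun (congrFun h a) b
      exact Iff.of_eq this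
  haveI : Nonempty (Setoid α) := ⟨⊥⟩
  obtain ⟨P, hP⟩ := Finite.exists_max (phi A)
  obtain ⟨f, hf, hf2⟩ := rado_aux (phi A P) _ A hA hP le_rfl
  exact ⟨f, hf, P, fun s hs => hf2 s hs⟩

end Pool.Agent.H542.UP
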