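import Pool.Agent.R553.SP.Euler

/-!
# Tours from even connected lists of pairs
-/

set_option autoImplicit false
set_option linter.unusedSectionVars false

namespace Pool.Agent.H542.UP

open Finset Pool.Agent.R553.SP

variable {V : Type} [DecidableEq V]

/-- number of ends at `v` of the pairs in the list -/
def dg (v : V) (L : List (V × V)) : ℕ :=
  (L.map fun p => (if p.1 = v then 1 else 0) + (if p.2 = v then 1 else 0)).sum

theorem dg_nil (v : V) : dg v [] = 0 := rfl

theorem dg_cons (v : V) (p : V × V) (L : List (V × V)) :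
    dg v (p :: L) = ((if p.1 = v then 1 else 0) + (if p.2 = v then 1 else 0)) + dg v L := by
  simp [dg]

theorem dg_append (v : V) (L M : List (V × V)) : dg v (L ++ M) = dg v L + dg v M := by
  simp [dg]

/-- total cost of a list of pairs -/
def cst (d : V → V → ℝ) (L : List (V × V)) : ℝ := (L.map fun p => d p.1 p.2).sum

theorem tour_of_list [Fintype V] (hn : 2 ≤ Fintype.card V) (L : List (V × V))
    (hev : ∀ v, dg v L % 2 = 0)
    (hcon : ∀ S : Finset V, S.Nonempty → S ≠ univ → ∃ p ∈ L, ¬ (p.1 ∈ S ↔ p.2 ∈ S))
    (d : V → V → ℝ) (hds : ∀ i j, d i j = d j i) (htri : ∀ i j k, d i k ≤ d i j + d j k) :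
    ∃ f : Fin (Fintype.card V) ≃ V, ∑ i, d (f i) (f (finRotate _ i)) ≤ cst d L := by
  classical
  set a : Fin L.length → V := fun i => (L.get i).1 with ha
  set b : Fin L.length → V := fun i => (L.get i).2 with hb
  -- an edge for every pair
  have hedge : ∀ p ∈ L, ∃ e, a e = p.1 ∧ b e = p.2 := by
    intro p hp
    obtain ⟨e, he⟩ := List.get_of_mem hp
    exact ⟨e, by rw [ha]; simp only; rw [he], by rw [hb]; simp only; rw [he]⟩
  have hinc : ∀ q : V, ∃ e, a e = q ∨ b e = q := by
    intro q
    obtain ⟨p, hp, hpS⟩ := hcon {q} (by simp) (by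
      intro h
      have : ({q} : Finset V).card = Fintype.card V := by rw [h, Finset.card_univ]
      rw [Finset.card_singleton] at this
      omega)
    obtain ⟨e, he1, he2⟩ := hedge p hp
    simp only [Finset.mem_singleton] at hpS
    refine ⟨e, ?_⟩
    rw [he1, he2]
    tauto
  have hV : Nonempty V := Fintype.card_pos_iff.1 (by omega)
  obtain ⟨q0⟩ := hV
  haveI hE : Nonempty (Fin L.length) := ⟨(hinc q0).choose⟩
  -- degrees
  have hsum : ∀ (M : Type) [AddCommMonoid M] (c : V × V → M),
      ∑ i : Fin L.length, c (L.get i) = (L.map c).sum := by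
    intro M _ c
    have e : (List.ofFn fun i : Fin L.length => c (L.get i)) = L.map c :=
      List.ofFn_getElem_eq_map L c
    rw [← e, List.sum_ofFn]
  have hdeg : ∀ q, Even ((univ.filter fun e => a e = q).card +
      (univ.filter fun e => b e = q).card) := by
    intro q
    have e1 : (univ.filter fun e => a e = q).card + (univ.filter fun e => b e = q).card =
        dg q L := by
      rw [Finset.card_filter, Finset.card_filter, ← Finset.sum_add_distrib]
      exact hsum ℕ (fun p => (if p.1 = q then 1 else 0) + (if p.2 = q then 1 else 0))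
    rw [e1, Nat.even_iff]
    exact hev q
  -- connectivity
  have hconn : ∀ S : Set (Fin L.length), S.Nonempty → Sᶜ.Nonempty →
      ∃ e ∈ S, ∃ f ∉ S, Share a b e f := by
    intro S h1 h2
    set A : Finset V := univ.filter fun v => ∃ e ∈ S, a e = v ∨ b e = v with hA
    have hAm : ∀ v, v ∈ A ↔ ∃ e ∈ S, a e = v ∨ b e = v := by simp [hA]
    by_cases hAu : A = univ
    · obtain ⟨f, hf⟩ := h2
      obtain ⟨e, he, h3⟩ := (hAm (a f)).1 (by rw [hAu]; exact Finset.mem_univ _)
      refine ⟨e, he, f, hf, ?_⟩
      unfold Share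
      tauto
    · obtain ⟨e, he⟩ := h1
      obtain ⟨p, hp, hpA⟩ := hcon A ⟨a e, (hAm _).2 ⟨e, he, Or.inl rfl⟩⟩ hAu
      obtain ⟨f, hf1, hf2⟩ := hedge p hp
      have hfS : f ∉ S := by
        intro hfS
        apply hpA
        constructor
        · intro _
          exact (hAm _).2 ⟨f, hfS, Or.inr hf2⟩
        · intro _
          exact (hAm _).2 ⟨f, hfS, Or.inl hf1⟩
      by_cases hq : p.1 ∈ A
      · obtain ⟨e', he', h3⟩ := (hAm _).1 hq
        refine ⟨e', he', f, hfS, ?_⟩
        unfold Share
        rw [hf1]
        tauto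
      · have hq' : p.2 ∈ A := by tauto
        obtain ⟨e', he', h3⟩ := (hAm _).1 hq'
        refine ⟨e', he', f, hfS, ?_⟩
        unfold Share
        rw [hf2]
        tauto
  obtain ⟨l, hne, hnd, hall, hcc⟩ := euler a b hdeg hconn
  obtain ⟨x, l0, rfl⟩ := List.exists_cons_of_ne_nil hne
  -- all points are visited
  have hhd : ∀ y ∈ x :: l0, hd a b y ∈ (x :: l0).map (tl a b) := by
    intro y hy
    obtain ⟨A, B, hAB⟩ := List.append_of_mem hy
    rw [hAB] at hcc ⊢
    have r1 := cc_rot _ _ _ hcc
    have p1 : ((y :: B) ++ A).Perm (A ++ y :: B) := List.perm_append_comm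
    rw [← (p1.map _).mem_iff]
    rw [List.cons_append] at r1 ⊢
    rcases hBA : B ++ A with _ | ⟨z, C⟩
    · rw [hBA] at r1
      have := r1.2 y (by simp) y (by simp)
      simp [this]
    · rw [hBA] at r1
      have := (List.isChain_cons_cons.1 r1.1).1
      simp [this]
  have hvis : ∀ q, q ∈ (x :: l0).map (tl a b) := by
    intro q
    obtain ⟨e, he⟩ := hinc q
    obtain ⟨y, hy, rfl⟩ := List.mem_map.1 (hall e)
    have : tl a b y = q ∨ hd a b y = q := by
      unfold tl hd
      cases y.2 <;> simp <;> tauto
    rcases this with h | h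
    · exact List.mem_map.2 ⟨y, hy, h⟩
    · exact h ▸ hhd y hy
  obtain ⟨f, hf⟩ := shortcut d htri (tl a b x) (l0.map (tl a b)) (fun q => hvis q)
  refine ⟨f, hf.trans (le_of_eq ?_)⟩
  have hclose : hd a b ((x :: l0).getLast (by simp)) = tl a b x := by
    apply hcc.2
    · rw [List.getLast?_eq_getLast_of_ne_nil (by simp)]
      exact rfl
    · simp
  have h1 := trail_cost a b d x l0 hcc.1
  rw [hclose] at h1
  rw [h1]
  have h2 : ((x :: l0).map fun y => d (tl a b y) (hd a b y)).sum =
      (((x :: l0).map Prod.fst).map fun e => d (a e) (b e)).sum := by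
    rw [List.map_map]
    congr 1
    apply List.map_congr_left
    intro y _
    unfold tl hd
    simp only [Function.comp]
    cases y.2
    · simp [hds (b y.1) (a y.1)]
    · simp
  rw [h2]
  have h3 : (((x :: l0).map Prod.fst).map fun e => d (a e) (b e)).sum =
      ∑ e, d (a e) (b e) := by
    rw [← List.sum_toFinset _ hnd]
    apply Finset.sum_congr _ (fun _ _ => rfl)
    ext e
    simp only [List.mem_toFinset, Finset.mem_univ, iff_true]
    exact hall e
  rw [h3]
  exact hsum ℝ (fun p => d p.1 p.2)

/-! ## pairing up the elements of a list -/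

/-- the pairs first-second, third-fourth, ... of a list -/
def pu {α : Type} : List α → List (α × α)
  | [] => []
  | [_] => []
  | a :: b :: l => (a, b) :: pu l

theorem pu_length {α : Type} : ∀ l : List α, 2 * (pu l).length ≤ l.length
  | [] => by simp [pu]
  | [_] => by simp [pu]
  | a :: b :: l => by
    have := pu_length l
    simp only [pu, List.length_cons]
    omega

theorem pu_mem {α : Type} : ∀ (l : List α) (p : α × α), p ∈ pu l → p.1 ∈ l ∧ p.2 ∈ l
  | [], p, h => by simp [pu] at h
  | [_], p, h => by simp [pu] at h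
  | a :: b :: l, p, h => by
    simp only [pu, List.mem_cons] at h
    rcases h with rfl | h
    · simp
    · have := pu_mem l p h
      simp only [List.mem_cons]
      tauto

/-- number of occurrences -/
def cn (v : V) (l : List V) : ℕ := (l.map fun x => if x = v then 1 else 0).sum

theorem cn_cons (v a : V) (l : List V) : cn v (a :: l) = (if a = v then 1 else 0) + cn v l := by
  simp [cn]

theorem cn_append (v : V) (l m : List V) : cn v (l ++ m) = cn v l + cn v m := by
  simp [cn]

theorem cn_perm (v : V) {l m : List V} (h : l.Perm m) : cn v l = cn v m :=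
  (h.map _).sum_eq

theorem cn_flatten (v : V) (B : List (List V)) : cn v B.flatten = (B.map (cn v)).sum := by
  induction B with
  | nil => rfl
  | cons b B ih => rw [List.flatten_cons, cn_append, ih, List.map_cons, List.sum_cons]

theorem cn_toList (T : Finset V) (k : V) : cn k T.toList = if k ∈ T then 1 else 0 := by
  have : cn k T.toList = ∑ x ∈ T, if x = k then 1 else 0 := Finset.sum_map_toList T _
  rw [this, Finset.sum_ite_eq']

theorem pu_dg : ∀ (l : List V) (v : V), l.length % 2 = 0 → dg v (pu l) = cn v l
  | [], v, _ => by simp [pu, dg, cn]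
  | [_], v, h => by simp at h
  | a :: b :: l, v, h => by
    have := pu_dg l v (by simp only [List.length_cons] at h; omega)
    simp only [pu]
    rw [dg_cons, this, cn_cons, cn_cons]
    simp only
    ring

theorem pu_append {α : Type} : ∀ (l m : List α), l.length % 2 = 0 → pu (l ++ m) = pu l ++ pu m
  | [], m, _ => by simp [pu]
  | [_], m, h => by simp at h
  | a :: b :: l, m, h => by
    have := pu_append l m (by simp only [List.length_cons] at h; omega)
    simp only [pu, List.cons_append]
    rw [this]

theorem pu_sub {α : Type} : ∀ (l m : List α) (p : α × α), p ∈ pu l → p ∈ pu (l ++ m)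
  | [], m, p, h => by simp [pu] at h
  | [_], m, p, h => by simp [pu] at h
  | a :: b :: l, m, p, h => by
    simp only [pu, List.cons_append, List.mem_cons] at h ⊢
    rcases h with h | h
    · exact Or.inl h
    · exact Or.inr (pu_sub l m p h)

/-- if neither matching crosses `S` then the list is on one side -/
theorem pu_const {α : Type} (S : α → Prop) (N : ℕ) : ∀ l : List α, l.length ≤ N →
    (∀ p ∈ pu l, (S p.1 ↔ S p.2)) → (∀ p ∈ pu l.tail, (S p.1 ↔ S p.2)) →
    ∀ a ∈ l, ∀ b ∈ l, (S a ↔ S b) := by
  induction N with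
  | zero =>
    intro l hl _ _ a ha
    have : l = [] := List.length_eq_zero_iff.1 (by omega)
    rw [this] at ha
    simp at ha
  | succ N ih =>
    intro l hl h1 h2 a ha b hb
    rcases l with _ | ⟨x, _ | ⟨y, t⟩⟩
    · simp at ha
    · simp only [List.mem_singleton] at ha hb
      rw [ha, hb]
    · have h3 : (S x ↔ S y) := h1 (x, y) (by simp [pu])
      have h4 := ih (y :: t) (by simp only [List.length_cons] at hl ⊢; omega) h2 (by
        intro p hp
        exact h1 p (by simp only [pu, List.mem_cons]; exact Or.inr hp))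
      have h5 : ∀ z ∈ x :: y :: t, (S z ↔ S y) := by
        intro z hz
        rcases List.mem_cons.1 hz with rfl | hz
        · exact h3
        · exact h4 z hz y (by simp)
      rw [h5 a ha, h5 b hb]

/-- flattening blocks of even length -/
theorem pu_flatten {α : Type} : ∀ (B : List (List α)), (∀ b ∈ B, b.length % 2 = 0) →
    ∀ p ∈ pu B.flatten, ∃ b ∈ B, p.1 ∈ b ∧ p.2 ∈ b
  | [], _, p, h => by simp [pu] at h
  | b :: B, hB, p, h => by
    rw [List.flatten_cons, pu_append _ _ (hB b (by simp))] at h
    rcases List.mem_append.1 h with h | h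
    · exact ⟨b, by simp, pu_mem b p h⟩
    · obtain ⟨b', hb', h'⟩ := pu_flatten B (fun b hb => hB b (by simp [hb])) p h
      exact ⟨b', by simp [hb'], h'⟩

end Pool.Agent.H542.UP
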