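import Pool.Agent.H542.UP.Tour

/-!
# Tours from covering walks and a few pairs of the clique
-/

set_option autoImplicit false
set_option linter.unusedSectionVars false

namespace Pool.Agent.H542.UP

open Finset Pool.Agent.R553.SP

section walks

variable {V : Type} [DecidableEq V] {G : SimpleGraph V}

/-- the pairs used by a walk -/
def dl {u v : V} (w : G.Walk u v) : List (V × V) := w.darts.map fun e => (e.fst, e.snd)

theorem dl_dg {u v : V} (w : G.Walk u v) (x : V) :
    dg x (dl w) % 2 = ((if u = x then 1 else 0) + (if v = x then 1 else 0)) % 2 := by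
  induction w with
  | nil =>
    simp only [dl, SimpleGraph.Walk.darts_nil, List.map_nil, dg_nil]
    split_ifs <;> rfl
  | cons h p ih =>
    rename_i u v w
    have e : dl (SimpleGraph.Walk.cons h p) = (u, v) :: dl p := rfl
    rw [e, dg_cons]
    simp only
    omega

theorem dl_side {u v : V} (S : V → Prop) (w : G.Walk u v) (h : ∀ p ∈ dl w, (S p.1 ↔ S p.2)) :
    ∀ x ∈ w.support, (S x ↔ S u) := by
  induction w with
  | nil =>
    intro x hx
    simp only [SimpleGraph.Walk.support_nil, List.mem_singleton] at hx
    rw [hx]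
  | cons hh p ih =>
    rename_i u v w
    have e : dl (SimpleGraph.Walk.cons hh p) = (u, v) :: dl p := rfl
    rw [e] at h
    intro x hx
    rw [SimpleGraph.Walk.support_cons] at hx
    have h1 : S u ↔ S v := h (u, v) (by simp)
    rcases List.mem_cons.1 hx with rfl | hx
    · exact Iff.rfl
    · rw [ih (fun p hp => h p (by simp [hp])) x hx, h1]

theorem dl_cost {u v : V} (d : V → V → ℝ) (hd : ∀ u v, G.Adj u v → d u v ≤ 1)
    (w : G.Walk u v) : cst d (dl w) ≤ w.length := by
  induction w with
  | nil => simp [dl, cst]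
  | cons h p ih =>
    rename_i u v w
    have e : dl (SimpleGraph.Walk.cons h p) = (u, v) :: dl p := rfl
    rw [e]
    simp only [cst, List.map_cons, List.sum_cons, SimpleGraph.Walk.length_cons, Nat.cast_add,
      Nat.cast_one] at ih ⊢
    have := hd u v h
    linarith

theorem cst_append (d : V → V → ℝ) (L M : List (V × V)) :
    cst d (L ++ M) = cst d L + cst d M := by
  simp [cst]

theorem dg_flatten (v : V) (B : List (List (V × V))) :
    dg v B.flatten = (B.map (dg v)).sum := by
  induction B with
  | nil => rfl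
  | cons b B ih => rw [List.flatten_cons, dg_append, ih, List.map_cons, List.sum_cons]

theorem cst_flatten (d : V → V → ℝ) (B : List (List (V × V))) :
    cst d B.flatten = (B.map (cst d)).sum := by
  induction B with
  | nil => rfl
  | cons b B ih => rw [List.flatten_cons, cst_append, ih, List.map_cons, List.sum_cons]

end walks

section
variable {V ι : Type} [Fintype V] [DecidableEq V] [Fintype ι] (G : SimpleGraph V)
  (κ : V → Option ι)

/-- the clique -/
abbrev KK : Type := {v : V // κ v = none}

/-- the degree of a point of the clique in the multigraph of the chosen pairs -/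
def degM {κ : V → Option ι} (f : ι → KK κ × KK κ) (k : KK κ) : ℕ :=
  ∑ i, ((if (f i).1 = k then 1 else 0) + (if (f i).2 = k then 1 else 0))

theorem up_core (hn : 2 ≤ Fintype.card V) (hne : Nonempty (KK κ))
    (d : V → V → ℝ) (hds : ∀ i j, d i j = d j i) (htri : ∀ i j k, d i k ≤ d i j + d j k)
    (hadj : ∀ u v, G.Adj u v → d u v ≤ 1) (hKd : ∀ u v : KK κ, d u v ≤ 1)
    (f : ι → KK κ × KK κ) (w : ∀ i, G.Walk ((f i).1 : V) ((f i).2 : V))
    (hw : ∀ i v, κ v = some i → v ∈ (w i).support)
    (F : List (KK κ × KK κ)) (hF : ∀ k, dg k F % 2 = degM f k % 2)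
    (hS : ∀ S : KK κ → Prop, (∀ i, (S (f i).1 ↔ S (f i).2)) → (∀ p ∈ F, (S p.1 ↔ S p.2)) →
      ∀ a b, (S a ↔ S b)) :
    ∃ g : Fin (Fintype.card V) ≃ V, ∑ i, d (g i) (g (finRotate _ i)) ≤
      (∑ i, ((w i).length : ℝ)) + F.length := by
  classical
  set L1 : List (V × V) := F.map fun p => ((p.1 : V), (p.2 : V)) with hL1
  set L2 : List (V × V) := ((univ : Finset ι).toList.map fun i => dl (w i)).flatten with hL2
  have hd1 : ∀ v, dg v L1 = if h : κ v = none then dg (⟨v, h⟩ : KK κ) F else 0 := by
    intro v
    have : ∀ F : List (KK κ × KK κ), dg v (F.map fun p => ((p.1 : V), (p.2 : V))) =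
        if h : κ v = none then dg (⟨v, h⟩ : KK κ) F else 0 := by
      intro F
      induction F with
      | nil => simp [dg]
      | cons p F ih =>
        rw [List.map_cons, dg_cons, ih]
        by_cases h : κ v = none
        · rw [dif_pos h, dif_pos h, dg_cons]
          simp only [Subtype.ext_iff]
        · rw [dif_neg h, dif_neg h]
          have e1 : ((p.1 : V)) ≠ v := by
            intro h'
            exact h (h' ▸ p.1.2)
          have e2 : ((p.2 : V)) ≠ v := by
            intro h'
            exact h (h' ▸ p.2.2)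
          simp [e1, e2]
    exact this F
  have hd2 : ∀ v, dg v L2 = ∑ i, dg v (dl (w i)) := by
    intro v
    rw [hL2, dg_flatten, List.map_map]
    exact Finset.sum_map_toList univ _
  have hev : ∀ v, dg v (L1 ++ L2) % 2 = 0 := by
    intro v
    rw [dg_append, hd2]
    have e1 : (∑ i, dg v (dl (w i))) % 2 =
        (∑ i, ((if ((f i).1 : V) = v then 1 else 0) + (if ((f i).2 : V) = v then 1 else 0))) % 2 := by
      rw [Finset.sum_nat_mod, Finset.sum_nat_mod univ 2 (fun i => _ + _)]
      congr 1
      apply Finset.sum_congr rfl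
      intro i _
      exact dl_dg (w i) v
    have e2 : dg v L1 % 2 =
        (∑ i, ((if ((f i).1 : V) = v then 1 else 0) + (if ((f i).2 : V) = v then 1 else 0))) % 2 := by
      rw [hd1]
      by_cases h : κ v = none
      · rw [dif_pos h, hF]
        unfold degM
        simp only [Subtype.ext_iff]
      · rw [dif_neg h]
        rw [Finset.sum_eq_zero]
        intro i _
        have e1 : ((f i).1 : V) ≠ v := by
          intro h'
          exact h (h' ▸ (f i).1.2)
        have e2 : ((f i).2 : V) ≠ v := by
          intro h'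
          exact h (h' ▸ (f i).2.2)
        simp [e1, e2]
    omega
  have hcon : ∀ S : Finset V, S.Nonempty → S ≠ univ →
      ∃ p ∈ L1 ++ L2, ¬ (p.1 ∈ S ↔ p.2 ∈ S) := by
    intro S h1 h2
    by_contra hc
    push Not at hc
    have hc' : ∀ p ∈ L1 ++ L2, (p.1 ∈ S ↔ p.2 ∈ S) := by
      intro p hp
      exact hc p hp
    have hside : ∀ i, ∀ x ∈ (w i).support, (x ∈ S ↔ ((f i).1 : V) ∈ S) := by
      intro i
      apply dl_side (fun v => v ∈ S) (w i)
      intro p hp
      apply hc'
      apply List.mem_append_right
      rw [hL2, List.mem_flatten]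
      exact ⟨dl (w i), List.mem_map.2 ⟨i, by simp, rfl⟩, hp⟩
    have hconst := hS (fun k => (k : V) ∈ S) (by
      intro i
      exact (hside i _ (SimpleGraph.Walk.end_mem_support _)).symm) (by
      intro p hp
      exact hc' ((p.1 : V), (p.2 : V)) (List.mem_append_left _ (List.mem_map.2 ⟨p, hp, rfl⟩)))
    obtain ⟨k0⟩ := hne
    by_cases hk : (k0 : V) ∈ S
    · apply h2
      rw [Finset.eq_univ_iff_forall]
      intro v
      rcases hv : κ v with _ | i
      · exact (hconst k0 ⟨v, hv⟩).1 hk
      · rw [hside i v (hw i v hv)]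
        exact (hconst k0 (f i).1).1 hk
    · obtain ⟨v, hvS⟩ := h1
      rcases hv : κ v with _ | i
      · exact hk ((hconst ⟨v, hv⟩ k0).1 hvS)
      · rw [hside i v (hw i v hv)] at hvS
        exact hk ((hconst (f i).1 k0).1 hvS)
  obtain ⟨g, hg⟩ := tour_of_list hn (L1 ++ L2) hev hcon d hds htri
  refine ⟨g, hg.trans ?_⟩
  rw [cst_append]
  have e1 : cst d L1 ≤ F.length := by
    have : ∀ F : List (KK κ × KK κ), cst d (F.map fun p => ((p.1 : V), (p.2 : V))) ≤ F.length := by
      intro F
      induction F with
      | nil => simp [cst]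
      | cons p F ih =>
        simp only [cst, List.map_cons, List.sum_cons, List.length_cons, Nat.cast_add,
          Nat.cast_one] at ih ⊢
        have := hKd p.1 p.2
        linarith
    exact this F
  have e2 : cst d L2 ≤ ∑ i, ((w i).length : ℝ) := by
    rw [hL2, cst_flatten, List.map_map]
    have : (List.map (cst d ∘ fun i => dl (w i)) (univ : Finset ι).toList).sum =
        ∑ i, cst d (dl (w i)) := by
      exact Finset.sum_map_toList univ _
    rw [this]
    exact Finset.sum_le_sum fun i _ => dl_cost d hadj (w i)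
  linarith

open Classical in
/-- handshake for a set closed under the chosen pairs -/
theorem handshake {κ : V → Option ι} (f : ι → KK κ × KK κ) (C : KK κ → Prop)
    (hC : ∀ i, (C (f i).1 ↔ C (f i).2)) (T : Finset (KK κ))
    (hT : ∀ k, k ∈ T ↔ C k ∧ degM f k % 2 = 1) : T.card % 2 = 0 := by
  have hT' : T = (univ : Finset (KK κ)).filter fun k => C k ∧ degM f k % 2 = 1 := by
    ext k
    rw [hT k]
    simp
  rw [hT']
  have h1 : ((univ : Finset (KK κ)).filter fun k => C k ∧ degM f k % 2 = 1).card % 2 =
      (∑ k ∈ (univ : Finset (KK κ)).filter C, degM f k) % 2 := by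
    rw [Finset.sum_nat_mod, ← Finset.filter_filter, Finset.card_filter]
    congr 1
    apply Finset.sum_congr rfl
    intro k _
    split_ifs with h
    · omega
    · omega
  rw [h1]
  have h2 : ∑ k ∈ (univ : Finset (KK κ)).filter C, degM f k =
      ∑ i, (if C (f i).1 then 2 else 0) := by
    unfold degM
    rw [Finset.sum_comm]
    apply Finset.sum_congr rfl
    intro i _
    rw [Finset.sum_add_distrib]
    rw [Finset.sum_ite_eq, Finset.sum_ite_eq]
    simp only [Finset.mem_filter, Finset.mem_univ, true_and]
    have := hC i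
    by_cases h : C (f i).1
    · simp [h, this.1 h]
    · have h2 : ¬ C (f i).2 := fun h' => h (this.2 h')
      simp [h, h2]
  rw [h2, Finset.sum_nat_mod,
    Finset.sum_eq_zero (fun i _ => by split_ifs <;> rfl), Nat.zero_mod]

/-- the relation of being joined by chosen pairs -/
def gen {κ : V → Option ι} (f : ι → KK κ × KK κ) : Setoid (KK κ) :=
  Relation.EqvGen.setoid fun a b => ∃ i, a = (f i).1 ∧ b = (f i).2

theorem gen_f {κ : V → Option ι} (f : ι → KK κ × KK κ) (i : ι) : gen f (f i).1 (f i).2 :=
  Relation.EqvGen.rel _ _ ⟨i, rfl, rfl⟩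

theorem gen_inv {κ : V → Option ι} (f : ι → KK κ × KK κ) (S : KK κ → Prop)
    (hS : ∀ i, (S (f i).1 ↔ S (f i).2)) (a b : KK κ) (h : gen f a b) : S a ↔ S b := by
  have h' : Relation.EqvGen (fun a b => ∃ i, a = (f i).1 ∧ b = (f i).2) a b := h
  clear h
  induction h' with
  | rel a b h =>
    obtain ⟨i, rfl, rfl⟩ := h
    exact hS i
  | refl a => exact Iff.rfl
  | symm a b _ ih => exact ih.symm
  | trans a b c _ _ ih1 ih2 => exact ih1.trans ih2

end

end Pool.Agent.H542.UP
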